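import Pool.Agent.Lib.H14D.FE

/-!
# Isolation of monomials at the level of tuples (MP_5a30bb)
-/

set_option autoImplicit false

namespace Pool.Agent.Lib.H39S

open Finset

/-- number of occurrences of `k` in the tuple `τ`. -/
def mult {n : ℕ} {ι : Type*} [DecidableEq ι] (τ : Fin n → ι) (k : ι) : ℕ :=
  (univ.filter fun i => τ i = k).card

theorem mult_insertNth {n : ℕ} {ι : Type*} [DecidableEq ι] (τ : Fin n → ι) (k : ι)
    (i : Fin (n + 1)) :
    mult (i.insertNth (α := fun _ => ι) k τ) k = mult τ k + 1 := by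
  unfold mult
  rw [Finset.card_filter, Finset.card_filter, Fin.sum_univ_succAbove _ i]
  simp [add_comm]

/-- the isolation inequality. -/
theorem isolation_sum {n : ℕ} {ι : Type*} [Fintype ι] [DecidableEq ι]
    (F : (Fin (n + 1) → ι) → ℝ) (hF : ∀ κ, 0 ≤ F κ) (T : (Fin n → ι) → Prop) [DecidablePred T]
    (hT : ∀ κ : Fin (n + 1) → ι, ∀ i j, T (fun a => κ (i.succAbove a)) →
      T (fun a => κ (j.succAbove a)) → κ i = κ j) :
    ∑ i : Fin (n + 1), ∑ τ ∈ univ.filter T, ∑ k,
      F (i.insertNth (α := fun _ => ι) k τ) / ((mult τ k : ℝ) + 1) ≤ ∑ κ, F κ := by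
  classical
  let c : Fin (n + 1) → (Fin (n + 1) → ι) → ℝ := fun i κ =>
    if T (fun a => κ (i.succAbove a)) then 1 / (mult κ (κ i) : ℝ) else 0
  have hc : ∀ κ, ∑ i, c i κ ≤ 1 := by
    intro κ
    by_cases h : ∃ i : Fin (n + 1), T (fun a => κ (i.succAbove a))
    · obtain ⟨i0, h0⟩ := h
      have h1 : ∀ i, c i κ ≤ if κ i = κ i0 then 1 / (mult κ (κ i0) : ℝ) else 0 := by
        intro i
        simp only [c]
        by_cases h2 : T (fun a => κ (i.succAbove a))
        · have h3 := hT κ i i0 h2 h0
          rw [if_pos h2, if_pos h3, h3]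
        · rw [if_neg h2]
          split_ifs
          · positivity
          · exact le_rfl
      refine (Finset.sum_le_sum fun i _ => h1 i).trans ?_
      rw [← Finset.sum_filter, Finset.sum_const, nsmul_eq_mul]
      have h4 : (mult κ (κ i0) : ℝ) ≠ 0 := by
        have : 0 < mult κ (κ i0) := Finset.card_pos.2 ⟨i0, by simp⟩
        positivity
      have h5 : ((univ.filter fun i => κ i = κ i0).card : ℝ) = (mult κ (κ i0) : ℝ) := rfl
      rw [h5]
      exact le_of_eq (by field_simp)
    · push Not at h
      have h1 : ∀ i, c i κ = 0 := fun i => if_neg (h i)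
      simp [h1]
  have h1 : ∀ i : Fin (n + 1), ∑ τ ∈ univ.filter T, ∑ k,
      F (i.insertNth (α := fun _ => ι) k τ) / ((mult τ k : ℝ) + 1) = ∑ κ, F κ * c i κ := by
    intro i
    rw [← (Fin.insertNthEquiv (fun _ => ι) i).sum_comp, Fintype.sum_prod_type_right,
      Finset.sum_filter]
    refine Finset.sum_congr rfl fun τ _ => ?_
    split_ifs with h
    · refine Finset.sum_congr rfl fun k _ => ?_
      have h2 : (Fin.insertNthEquiv (fun _ => ι) i) (k, τ) =
          i.insertNth (α := fun _ => ι) k τ := rfl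
      rw [h2]
      have h3 : (fun a => (i.insertNth (α := fun _ => ι) k τ : Fin (n + 1) → ι)
          (i.succAbove a)) = τ := by
        funext a
        simp
      have h4 : c i (i.insertNth (α := fun _ => ι) k τ) = 1 / ((mult τ k : ℝ) + 1) := by
        simp only [c]
        rw [h3, if_pos h, Fin.insertNth_apply_same, mult_insertNth]
        push_cast
        rfl
      rw [h4]
      ring
    · symm
      refine Finset.sum_eq_zero fun k _ => ?_
      have h2 : (Fin.insertNthEquiv (fun _ => ι) i) (k, τ) =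
          i.insertNth (α := fun _ => ι) k τ := rfl
      have h3 : (fun a => (i.insertNth (α := fun _ => ι) k τ : Fin (n + 1) → ι)
          (i.succAbove a)) = τ := by
        funext a
        simp
      rw [h2]
      have h4 : c i (i.insertNth (α := fun _ => ι) k τ) = 0 := by
        simp only [c]
        rw [h3, if_neg h]
      rw [h4, mul_zero]
  simp only [h1]
  rw [Finset.sum_comm]
  refine Finset.sum_le_sum fun κ _ => ?_
  rw [← Finset.mul_sum]
  calc F κ * ∑ i, c i κ ≤ F κ * 1 := mul_le_mul_of_nonneg_left (hc κ) (hF κ)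
    _ = F κ := mul_one _

end Pool.Agent.Lib.H39S
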