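import Pool.Agent.Lib.H39S.A

/-!
# The key identity for the wedge product with adapted blocks (MP_5a30bb)
-/

set_option autoImplicit false

namespace Pool.Agent.Lib.H39S

open Finset Equiv Pool.Agent.H69Hopf Pool.Agent.Lib.H14D.FE

/-- counting indices through the slots. -/
theorem count_slots {n : ℕ} (σ : Perm (Fin (2 * n))) (P : Fin (2 * n) → Prop) [DecidablePred P] :
    ∑ i : Fin n, ((if P (σ (fst i)) then 1 else 0) + (if P (σ (snd i)) then 1 else 0)) =
      (univ.filter P).card := by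
  rw [Finset.card_filter, ← Equiv.sum_comp σ, ← Equiv.sum_comp (pos' n), Fintype.sum_prod_type]
  refine Finset.sum_congr rfl fun i _ => ?_
  rw [Fintype.sum_bool, pos_true', pos_false', add_comm]

/-- every index sits in some slot. -/
theorem exists_slot {n : ℕ} (σ : Perm (Fin (2 * n))) (x : Fin (2 * n)) :
    ∃ p : Fin n, σ (fst p) = x ∨ σ (snd p) = x := by
  obtain ⟨⟨p, b⟩, hb⟩ := (pos' n).surjective (σ.symm x)
  refine ⟨p, ?_⟩
  cases b
  · left
    rw [← pos_false', hb, Equiv.apply_symm_apply]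
  · right
    rw [← pos_true', hb, Equiv.apply_symm_apply]

theorem slot_fst_inj {n : ℕ} (σ : Perm (Fin (2 * n))) {p q : Fin n}
    (h : σ (fst p) = σ (fst q)) : p = q := fst_inj (σ.injective h)

theorem slot_snd_inj {n : ℕ} (σ : Perm (Fin (2 * n))) {p q : Fin n}
    (h : σ (snd p) = σ (snd q)) : p = q := snd_inj (σ.injective h)

theorem slot_ne {n : ℕ} (σ : Perm (Fin (2 * n))) (p q : Fin n) : σ (fst p) ≠ σ (snd q) :=
  fun h => ne_fst_snd p q (σ.injective h)

/-- two slots with a common index are the same. -/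
theorem slot_unique {n : ℕ} (σ : Perm (Fin (2 * n))) {p q : Fin n} {x : Fin (2 * n)}
    (hp : σ (fst p) = x ∨ σ (snd p) = x) (hq : σ (fst q) = x ∨ σ (snd q) = x) : p = q := by
  rcases hp with hp | hp <;> rcases hq with hq | hq
  · exact slot_fst_inj σ (hp.trans hq.symm)
  · exact absurd (hp.trans hq.symm) (slot_ne σ p q)
  · exact absurd (hq.trans hp.symm) (slot_ne σ q p)
  · exact slot_snd_inj σ (hp.trans hq.symm)

/-- the coordinate plane form. -/
noncomputable def pf {M : ℕ} (e0 e1 : Fin M) : Fin M → Fin M → ℝ :=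
  sf (Pi.single e0 1) (Pi.single e1 1)

theorem pf_self {M : ℕ} {e0 e1 : Fin M} (h : e0 ≠ e1) : pf e0 e1 e0 e1 = 1 := by
  simp [pf, sf, h, h.symm]

theorem pf_swap {M : ℕ} {e0 e1 : Fin M} (h : e0 ≠ e1) : pf e0 e1 e1 e0 = -1 := by
  simp [pf, sf, h, h.symm]

theorem pf_ne {M : ℕ} {e0 e1 : Fin M} {x y : Fin M} (hxy : pf e0 e1 x y ≠ 0) :
    (x = e0 ∧ y = e1) ∨ (x = e1 ∧ y = e0) := by
  by_contra hcon
  push Not at hcon
  apply hxy
  unfold pf sf
  by_cases h1 : x = e0
  · by_cases h2 : y = e1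
    · exact absurd h2 (hcon.1 h1)
    · by_cases h3 : y = e0
      · by_cases h4 : x = e1
        · exact absurd h3 (hcon.2 h4)
        · simp [Pi.single_apply, h2, h4]
      · simp [Pi.single_apply, h2, h3]
  · by_cases h4 : x = e1
    · have h5 := hcon.2 h4
      simp [Pi.single_apply, h1, h5]
    · simp [Pi.single_apply, h1, h4]

section

variable {N : ℕ} {ι β : Type*} [DecidableEq β]

/-- the number of indices of a block. -/
def bsize (e0 e1 : Fin (2 * (N + 1))) (blk : Fin (2 * (N + 1)) → β) (l : β) : ℕ :=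
  (univ.filter fun s => (s ≠ e0 ∧ s ≠ e1) ∧ blk s = l).card

/-- a nonzero wedge product fills the blocks. -/
theorem filled (e0 e1 : Fin (2 * (N + 1)))
    (blk : Fin (2 * (N + 1)) → β) (B : ι → β)
    (w : ι → Fin (2 * (N + 1)) → Fin (2 * (N + 1)) → ℝ)
    (hblk : ∀ k s t, s ≠ e0 → s ≠ e1 → t ≠ e0 → t ≠ e1 → w k s t ≠ 0 → blk s = B k ∧ blk t = B k)
    (τ : Fin N → ι)
    (hne : mp (n := N + 1) (Fin.cons (α := fun _ => Fin (2 * (N + 1)) → Fin (2 * (N + 1)) → ℝ)
      (pf e0 e1) (fun i => w (τ i))) ≠ 0) (l : β) :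
    2 * (univ.filter fun i => B (τ i) = l).card = bsize e0 e1 blk l := by
  obtain ⟨σ, -, hσ⟩ := Finset.exists_ne_zero_of_sum_ne_zero hne
  have hprod := right_ne_zero_of_mul hσ
  rw [Fin.prod_univ_succ] at hprod
  have h0 := left_ne_zero_of_mul hprod
  have h1 := right_ne_zero_of_mul hprod
  rw [Fin.cons_zero] at h0
  have h2 := pf_ne h0
  unfold bsize
  rw [← count_slots σ, Fin.sum_univ_succ]
  have h3 : (if (σ (fst 0) ≠ e0 ∧ σ (fst 0) ≠ e1) ∧ blk (σ (fst 0)) = l then 1 else 0) = 0 := by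
    rw [if_neg]
    rintro ⟨⟨h, h'⟩, -⟩
    rcases h2 with h2 | h2
    · exact h h2.1
    · exact h' h2.1
  have h4 : (if (σ (snd 0) ≠ e0 ∧ σ (snd 0) ≠ e1) ∧ blk (σ (snd 0)) = l then 1 else 0) = 0 := by
    rw [if_neg]
    rintro ⟨⟨h, h'⟩, -⟩
    rcases h2 with h2 | h2
    · exact h' h2.2
    · exact h h2.2
  rw [h3, h4, Finset.card_filter, Finset.mul_sum]
  simp only [Nat.zero_add]
  refine Finset.sum_congr rfl fun i _ => ?_
  have h5 := (Finset.prod_ne_zero_iff.1 h1) i (mem_univ i)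
  rw [Fin.cons_succ] at h5
  -- the entries of the slot `succ i` are not `e0`, `e1`
  have h6 : ∀ x, (x = e0 ∨ x = e1) → σ (fst i.succ) ≠ x ∧ σ (snd i.succ) ≠ x := by
    intro x hx
    have hx0 : σ (fst 0) = x ∨ σ (snd 0) = x := by
      rcases h2 with h2 | h2 <;> rcases hx with hx | hx
      · left; rw [hx]; exact h2.1
      · right; rw [hx]; exact h2.2
      · right; rw [hx]; exact h2.2
      · left; rw [hx]; exact h2.1
    constructor
    · intro h
      exact absurd (slot_unique σ hx0 (Or.inl h)) (Fin.succ_ne_zero i).symm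
    · intro h
      exact absurd (slot_unique σ hx0 (Or.inr h)) (Fin.succ_ne_zero i).symm
  have h7 := hblk (τ i) _ _ (h6 e0 (Or.inl rfl)).1 (h6 e1 (Or.inr rfl)).1 (h6 e0 (Or.inl rfl)).2
    (h6 e1 (Or.inr rfl)).2 h5
  have h8 : ((σ (fst i.succ) ≠ e0 ∧ σ (fst i.succ) ≠ e1) ∧ blk (σ (fst i.succ)) = l) ↔
      B (τ i) = l := by
    rw [h7.1]
    exact ⟨fun h => h.2, fun h => ⟨⟨(h6 e0 (Or.inl rfl)).1, (h6 e1 (Or.inr rfl)).1⟩, h⟩⟩
  have h9 : ((σ (snd i.succ) ≠ e0 ∧ σ (snd i.succ) ≠ e1) ∧ blk (σ (snd i.succ)) = l) ↔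
      B (τ i) = l := by
    rw [h7.2]
    exact ⟨fun h => h.2, fun h => ⟨⟨(h6 e0 (Or.inl rfl)).2, (h6 e1 (Or.inr rfl)).2⟩, h⟩⟩
  simp only [h8, h9]
  split_ifs <;> rfl

/-- the vanishing of the crossed terms. -/
theorem crossed (e0 e1 : Fin (2 * (N + 1))) (he : e0 ≠ e1)
    (blk : Fin (2 * (N + 1)) → β) (B : ι → β)
    (w : ι → Fin (2 * (N + 1)) → Fin (2 * (N + 1)) → ℝ)
    (hsk : ∀ k s t, w k s t = - w k t s)
    (hblk : ∀ k s t, s ≠ e0 → s ≠ e1 → t ≠ e0 → t ≠ e1 → w k s t ≠ 0 → blk s = B k ∧ blk t = B k)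
    (τ : Fin N → ι)
    (hown : ∀ i s, s ≠ e0 → s ≠ e1 → blk s = B (τ i) → w (τ i) e0 s = 0 ∧ w (τ i) e1 s = 0)
    (hfill : ∀ l, 2 * (univ.filter fun i => B (τ i) = l).card = bsize e0 e1 blk l)
    (κ : Fin (N + 1) → ι) (hκ : ∀ i : Fin N, κ i.succ = τ i) (σ : Perm (Fin (2 * (N + 1))))
    (hσ : ∏ i, w (κ i) (σ (fst i)) (σ (snd i)) ≠ 0) :
    ∃ p : Fin (N + 1), (σ (fst p) = e0 ∧ σ (snd p) = e1) ∨ (σ (fst p) = e1 ∧ σ (snd p) = e0) := by
  by_contra hcon
  push Not at hcon
  have hprod := fun i => (Finset.prod_ne_zero_iff.1 hσ) i (mem_univ i)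
  -- slots of `e0`, `e1` with their partners
  have hpart : ∀ x y, x ≠ y → (∀ p, ¬ ((σ (fst p) = x ∧ σ (snd p) = y) ∨
      (σ (fst p) = y ∧ σ (snd p) = x))) → ∃ p s, s ≠ x ∧ s ≠ y ∧
      ((σ (fst p) = x ∧ σ (snd p) = s) ∨ (σ (fst p) = s ∧ σ (snd p) = x)) ∧
      w (κ p) x s ≠ 0 := by
    intro x y hxy hno
    obtain ⟨p, hp | hp⟩ := exists_slot σ x
    · refine ⟨p, σ (snd p), ?_, ?_, Or.inl ⟨hp, rfl⟩, ?_⟩
      · intro h
        exact slot_ne σ p p (hp.trans h.symm)
      · intro h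
        exact hno p (Or.inl ⟨hp, h⟩)
      · have := hprod p
        rwa [hp] at this
    · refine ⟨p, σ (fst p), ?_, ?_, Or.inr ⟨rfl, hp⟩, ?_⟩
      · intro h
        exact slot_ne σ p p (h.trans hp.symm)
      · intro h
        exact hno p (Or.inr ⟨h, hp⟩)
      · have := hprod p
        rw [hp, hsk] at this
        exact neg_ne_zero.1 this
  obtain ⟨p0, s, hs0, hs1, hps, hws⟩ := hpart e0 e1 he (by
    intro p hp
    rcases hp with hp | hp
    · exact (hcon p).1 hp.1 hp.2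
    · exact (hcon p).2 hp.1 hp.2)
  obtain ⟨p1, t, ht1, ht0, hpt, hwt⟩ := hpart e1 e0 he.symm (by
    intro p hp
    rcases hp with hp | hp
    · exact (hcon p).2 hp.1 hp.2
    · exact (hcon p).1 hp.1 hp.2)
  have hp01 : p0 ≠ p1 := by
    intro h
    subst h
    rcases hps with hps | hps <;> rcases hpt with hpt | hpt
    · exact he (hps.1.symm.trans hpt.1)
    · exact hs1 (hps.2.symm.trans hpt.2)
    · exact ht0 (hpt.2.symm.trans hps.2)
    · exact he (hps.2.symm.trans hpt.2)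
  have hin0 : σ (fst p0) = e0 ∨ σ (snd p0) = e0 := by
    rcases hps with h | h
    · exact Or.inl h.1
    · exact Or.inr h.2
  have hin1 : σ (fst p1) = e1 ∨ σ (snd p1) = e1 := by
    rcases hpt with h | h
    · exact Or.inl h.1
    · exact Or.inr h.2
  -- the other slots
  have hoth : ∀ i, i ≠ p0 → i ≠ p1 → (σ (fst i) ≠ e0 ∧ σ (fst i) ≠ e1) ∧
      (σ (snd i) ≠ e0 ∧ σ (snd i) ≠ e1) ∧ blk (σ (fst i)) = B (κ i) ∧
        blk (σ (snd i)) = B (κ i) := by
    intro i hi0 hi1
    have a1 : σ (fst i) ≠ e0 := fun h => hi0 (slot_unique σ (Or.inl h) hin0)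
    have a2 : σ (fst i) ≠ e1 := fun h => hi1 (slot_unique σ (Or.inl h) hin1)
    have a3 : σ (snd i) ≠ e0 := fun h => hi0 (slot_unique σ (Or.inr h) hin0)
    have a4 : σ (snd i) ≠ e1 := fun h => hi1 (slot_unique σ (Or.inr h) hin1)
    exact ⟨⟨a1, a2⟩, ⟨a3, a4⟩, hblk (κ i) _ _ a1 a2 a3 a4 (hprod i)⟩
  -- the count in a block
  have hcount : ∀ l, (if blk s = l then 1 else 0) + (if blk t = l then 1 else 0) +
      2 * (((univ.erase p0).erase p1).filter fun i => B (κ i) = l).card = bsize e0 e1 blk l := by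
    intro l
    unfold bsize
    rw [← count_slots σ, ← Finset.add_sum_erase univ _ (mem_univ p0),
      ← Finset.add_sum_erase (univ.erase p0) _ (Finset.mem_erase.2 ⟨hp01.symm, mem_univ p1⟩),
      ← add_assoc]
    congr 1
    · congr 1
      · rcases hps with h | h
        · rw [h.1, h.2]
          simp [hs0, hs1]
        · rw [h.1, h.2]
          simp [hs0, hs1]
      · rcases hpt with h | h
        · rw [h.1, h.2]
          simp [ht0, ht1]
        · rw [h.1, h.2]
          simp [ht0, ht1]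
    · rw [Finset.card_filter, Finset.mul_sum]
      refine Finset.sum_congr rfl fun i hi => ?_
      have hi1 := Finset.ne_of_mem_erase hi
      have hi0 := Finset.ne_of_mem_erase (Finset.mem_of_mem_erase hi)
      obtain ⟨⟨a1, a2⟩, ⟨a3, a4⟩, a5, a6⟩ := hoth i hi0 hi1
      simp only [a1, a2, a3, a4, a5, a6, ne_eq, not_false_eq_true, and_self, true_and]
      split_ifs <;> rfl
  have hst : blk t = blk s := by
    by_contra hne
    have h1 := hcount (blk s)
    rw [← hfill, if_pos rfl, if_neg hne] at h1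
    omega
  have h1 := hcount (blk s)
  rw [← hfill, if_pos rfl, if_pos hst] at h1
  have h2 : (univ.filter fun i => B (τ i) = blk s).card ≤
      (((univ.erase p0).erase p1).filter fun i => B (κ i) = blk s).card := by
    refine Finset.card_le_card_of_injOn Fin.succ ?_ (fun a _ b _ h => Fin.succ_injective _ h)
    intro i hi
    have hi' : B (τ i) = blk s := by simpa using hi
    simp only [Finset.coe_filter, Finset.mem_erase, Finset.mem_univ, and_true, Set.mem_ofPred_eq]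
    refine ⟨⟨?_, ?_⟩, ?_⟩
    · intro h
      rw [← h, hκ] at hwt
      exact hwt (hown i t ht0 ht1 (hst.trans hi'.symm)).2
    · intro h
      rw [← h, hκ] at hws
      exact hws (hown i s hs0 hs1 hi'.symm).1
    · rw [hκ]
      exact hi'
  omega

/-- the expansion along the slot with the plane `e0, e1`. -/
theorem expand (e0 e1 : Fin (2 * (N + 1))) (he : e0 ≠ e1)
    (blk : Fin (2 * (N + 1)) → β) (B : ι → β)
    (w : ι → Fin (2 * (N + 1)) → Fin (2 * (N + 1)) → ℝ)
    (hsk : ∀ k s t, w k s t = - w k t s)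
    (hblk : ∀ k s t, s ≠ e0 → s ≠ e1 → t ≠ e0 → t ≠ e1 → w k s t ≠ 0 → blk s = B k ∧ blk t = B k)
    (τ : Fin N → ι)
    (hown : ∀ i s, s ≠ e0 → s ≠ e1 → blk s = B (τ i) → w (τ i) e0 s = 0 ∧ w (τ i) e1 s = 0)
    (hfill : ∀ l, 2 * (univ.filter fun i => B (τ i) = l).card = bsize e0 e1 blk l)
    (κ : Fin (N + 1) → ι) (hκ : ∀ i : Fin N, κ i.succ = τ i) :
    mp (n := N + 1) (fun i => w (κ i)) =
      ∑ p, w (κ p) e0 e1 * mp (n := N + 1) (Function.update (fun i => w (κ i)) p (pf e0 e1)) := by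
  classical
  unfold mp
  simp only [Finset.mul_sum]
  rw [Finset.sum_comm]
  refine Finset.sum_congr rfl fun σ _ => ?_
  have hterm : ∀ p : Fin (N + 1),
      w (κ p) e0 e1 * (((Perm.sign σ : ℤ) : ℝ) *
        ∏ i, Function.update (fun i => w (κ i)) p (pf e0 e1) i (σ (fst i)) (σ (snd i))) =
      if (σ (fst p) = e0 ∧ σ (snd p) = e1) ∨ (σ (fst p) = e1 ∧ σ (snd p) = e0) then
        ((Perm.sign σ : ℤ) : ℝ) * ∏ i, w (κ i) (σ (fst i)) (σ (snd i)) else 0 := by
    intro p
    rw [← Finset.mul_prod_erase univ _ (mem_univ p), Function.update_self]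
    have h1 : ∏ i ∈ univ.erase p, Function.update (fun i => w (κ i)) p (pf e0 e1) i
        (σ (fst i)) (σ (snd i)) = ∏ i ∈ univ.erase p, w (κ i) (σ (fst i)) (σ (snd i)) := by
      refine Finset.prod_congr rfl fun i hi => ?_
      rw [Function.update_of_ne (Finset.ne_of_mem_erase hi)]
    rw [h1]
    split_ifs with h
    · rw [← Finset.mul_prod_erase univ (fun i => w (κ i) (σ (fst i)) (σ (snd i))) (mem_univ p)]
      rcases h with h | h
      · rw [h.1, h.2, pf_self he]
        ring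
      · rw [h.1, h.2, pf_swap he, hsk (κ p) e1 e0]
        ring
    · have h2 : pf e0 e1 (σ (fst p)) (σ (snd p)) = 0 := by
        by_contra h3
        exact h (pf_ne h3)
      rw [h2]
      ring
  simp only [hterm]
  by_cases h0 : ∏ i, w (κ i) (σ (fst i)) (σ (snd i)) = 0
  · rw [h0]
    simp
  · obtain ⟨p, hp⟩ := crossed e0 e1 he blk B w hsk hblk τ hown hfill κ hκ σ h0
    have hin : σ (fst p) = e0 ∨ σ (snd p) = e0 := by
      rcases hp with h | h
      · exact Or.inl h.1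
      · exact Or.inr h.2
    rw [Finset.sum_eq_single p]
    · rw [if_pos hp]
    · intro q _ hq
      rw [if_neg]
      intro hq'
      refine hq (slot_unique σ ?_ hin)
      rcases hq' with h | h
      · exact Or.inl h.1
      · exact Or.inr h.2
    · intro h
      exact absurd (mem_univ p) h

/-- the slot of the plane form is moved to the first place. -/
theorem mp_update_succ (w : ι → Fin (2 * (N + 1)) → Fin (2 * (N + 1)) → ℝ) (τ : Fin N → ι)
    (k : ι) (q : Fin N) (m : Fin (2 * (N + 1)) → Fin (2 * (N + 1)) → ℝ) :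
    mp (n := N + 1) (Function.update (fun i => w ((Fin.cons (α := fun _ => ι) k τ :
      Fin (N + 1) → ι) i)) q.succ m) =
    mp (n := N + 1) (Fin.cons (α := fun _ => Fin (2 * (N + 1)) → Fin (2 * (N + 1)) → ℝ) m
      (fun i => w (Function.update τ q k i))) := by
  rw [← mp_perm _ (swap 0 q.succ)]
  congr 1
  funext i
  refine Fin.cases ?_ (fun j => ?_) i
  · rw [swap_apply_left, Function.update_self, Fin.cons_zero]
  · rw [Fin.cons_succ]
    by_cases hj : j = q
    · subst hj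
      rw [swap_apply_right, Function.update_of_ne (Fin.succ_ne_zero j).symm, Fin.cons_zero,
        Function.update_self]
    · have h1 : j.succ ≠ q.succ := fun h => hj (Fin.succ_injective _ h)
      rw [swap_apply_of_ne_of_ne (Fin.succ_ne_zero j) h1, Function.update_of_ne h1, Fin.cons_succ,
        Function.update_of_ne hj]

/-- the key identity. -/
theorem key [DecidableEq ι] (e0 e1 : Fin (2 * (N + 1))) (he : e0 ≠ e1)
    (blk : Fin (2 * (N + 1)) → β) (B : ι → β)
    (w : ι → Fin (2 * (N + 1)) → Fin (2 * (N + 1)) → ℝ)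
    (hsk : ∀ k s t, w k s t = - w k t s)
    (hblk : ∀ k s t, s ≠ e0 → s ≠ e1 → t ≠ e0 → t ≠ e1 → w k s t ≠ 0 → blk s = B k ∧ blk t = B k)
    (τ : Fin N → ι)
    (hown : ∀ i s, s ≠ e0 → s ≠ e1 → blk s = B (τ i) → w (τ i) e0 s = 0 ∧ w (τ i) e1 s = 0)
    (hne : mp (n := N + 1) (Fin.cons (α := fun _ => Fin (2 * (N + 1)) → Fin (2 * (N + 1)) → ℝ)
      (pf e0 e1) (fun i => w (τ i))) ≠ 0) (k : ι)
    (hiso : ∀ q, mp (n := N + 1) (Fin.cons
      (α := fun _ => Fin (2 * (N + 1)) → Fin (2 * (N + 1)) → ℝ)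
      (pf e0 e1) (fun i => w (Function.update τ q k i))) ≠ 0 → τ q = k) :
    mp (n := N + 1) (Fin.cons (α := fun _ => Fin (2 * (N + 1)) → Fin (2 * (N + 1)) → ℝ)
      (w k) (fun i => w (τ i))) =
    ((mult τ k : ℝ) + 1) * w k e0 e1 *
      mp (n := N + 1) (Fin.cons (α := fun _ => Fin (2 * (N + 1)) → Fin (2 * (N + 1)) → ℝ)
      (pf e0 e1) (fun i => w (τ i))) := by
  have hfill := filled e0 e1 blk B w hblk τ hne
  have h1 : (Fin.cons (α := fun _ => Fin (2 * (N + 1)) → Fin (2 * (N + 1)) → ℝ)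
      (w k) (fun i => w (τ i)) : Fin (N + 1) → Fin (2 * (N + 1)) → Fin (2 * (N + 1)) → ℝ) =
      fun i => w ((Fin.cons (α := fun _ => ι) k τ : Fin (N + 1) → ι) i) := by
    funext i
    refine Fin.cases ?_ (fun j => ?_) i
    · rw [Fin.cons_zero, Fin.cons_zero]
    · rw [Fin.cons_succ, Fin.cons_succ]
  rw [h1, expand e0 e1 he blk B w hsk hblk τ hown hfill (Fin.cons (α := fun _ => ι) k τ)
    (fun i => Fin.cons_succ _ _ _), Fin.sum_univ_succ]
  have h2 : (Function.update (fun i => w ((Fin.cons (α := fun _ => ι) k τ :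
      Fin (N + 1) → ι) i)) 0 (pf e0 e1)) =
      Fin.cons (α := fun _ => Fin (2 * (N + 1)) → Fin (2 * (N + 1)) → ℝ)
      (pf e0 e1) (fun i => w (τ i)) := by
    funext i
    refine Fin.cases ?_ (fun j => ?_) i
    · rw [Function.update_self, Fin.cons_zero]
    · rw [Function.update_of_ne (Fin.succ_ne_zero j), Fin.cons_succ, Fin.cons_succ]
  rw [h2]
  simp only [mp_update_succ, Fin.cons_zero, Fin.cons_succ]
  have h3 : ∀ q, w (τ q) e0 e1 * mp (n := N + 1) (Fin.cons
      (α := fun _ => Fin (2 * (N + 1)) → Fin (2 * (N + 1)) → ℝ)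
      (pf e0 e1) (fun i => w (Function.update τ q k i))) =
      if τ q = k then w k e0 e1 * mp (n := N + 1) (Fin.cons
        (α := fun _ => Fin (2 * (N + 1)) → Fin (2 * (N + 1)) → ℝ)
        (pf e0 e1) (fun i => w (τ i))) else 0 := by
    intro q
    split_ifs with h
    · have h4 : Function.update τ q k = τ := by
        rw [← h, Function.update_eq_self]
      rw [h4, h]
    · have h5 : mp (n := N + 1) (Fin.cons
          (α := fun _ => Fin (2 * (N + 1)) → Fin (2 * (N + 1)) → ℝ)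
          (pf e0 e1) (fun i => w (Function.update τ q k i))) = 0 := by
        by_contra h6
        exact h (hiso q h6)
      rw [h5, mul_zero]
  simp only [h3]
  rw [← Finset.sum_filter, Finset.sum_const, nsmul_eq_mul]
  have h4 : (((univ.filter fun q => τ q = k).card : ℕ) : ℝ) = (mult τ k : ℝ) := rfl
  rw [h4]
  ring

end

end Pool.Agent.Lib.H39S
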