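import Pool.Agent.Lib.H14D.FE
import Pool.Agent.Lib.H56F.S5

/-!
# A nonzero wedge product when there is no common isotropic plane (MP_5a30bb)
-/

set_option autoImplicit false

namespace Pool.Agent.Lib.H39S

open Finset Equiv Pool.Agent.H69Hopf Pool.Agent.Lib.H14D.FE

/-- `mp` of a linear combination in all slots. -/
theorem mp_comb {n : ℕ} {ι : Type*} [Fintype ι] (w : ι → Fin (2 * n) → Fin (2 * n) → ℝ)
    (c : ι → ℝ) :
    mp (fun _ : Fin n => fun i j => ∑ r, c r * w r i j) =
      ∑ κ : Fin n → ι, (∏ i, c (κ i)) * mp (fun i => w (κ i)) := by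
  classical
  unfold mp
  simp only [Finset.mul_sum]
  rw [Finset.sum_comm]
  refine Finset.sum_congr rfl fun σ _ => ?_
  rw [Finset.prod_univ_sum, Fintype.piFinset_univ, Finset.mul_sum]
  refine Finset.sum_congr rfl fun κ _ => ?_
  rw [Finset.prod_mul_distrib]
  ring

/-- if the forms have no common isotropic plane, then some wedge product of `n` of them is not zero. -/
theorem exists_mp_ne {n : ℕ} (hn : 1 ≤ n) {ι : Type} [Fintype ι]
    (w : ι → Fin (2 * n) → Fin (2 * n) → ℝ) (hw : ∀ r i j, w r i j = - w r j i)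
    (h : ∀ x y : Fin (2 * n) → ℝ, LinearIndependent ℝ ![x, y] →
      ∃ r, ∑ i, ∑ j, w r i j * x i * y j ≠ 0) :
    ∃ κ : Fin n → ι, mp (fun i => w (κ i)) ≠ 0 := by
  by_contra hcon
  push Not at hcon
  have h0 : ∀ c : ι → ℝ, H56F.hpf (fun i j => ∑ r, c r * w r i j) = 0 := by
    intro c
    have h1 := mp_comb w c
    have h2 : H56F.hpf (fun i j => ∑ r, c r * w r i j) =
        mp (fun _ : Fin n => fun i j => ∑ r, c r * w r i j) := rfl
    rw [h2, h1]
    exact Finset.sum_eq_zero fun κ _ => by rw [hcon κ, mul_zero]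
  obtain ⟨x, y, hxy, hr⟩ := H56F.S5 hn (w := w) hw h0
  obtain ⟨r, hr'⟩ := h x y hxy
  exact hr' (hr r)

end Pool.Agent.Lib.H39S
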