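import Pool.Agent.Lib.H7HB.M3a

/-!
# H39S, file Six: dimension six

If the curvature operator of `R` is at most the square of a simple two-form `a ∧ b`, then `R` is in the class `SplitSimple`.
If all `a i * b j - a j * b i` are `0`: `E = 1`. Otherwise `a p * b q - a q * b p ≠ 0` for some `p, q`; `M` = the identity
matrix with the rows `p, q` replaced by `a, b`, `E = M⁻¹`. There is one block of four vectors.
-/

set_option autoImplicit false

namespace Pool.Agent.Lib.H39S

open Finset Pool.Agent.H69Hopf Pool.Agent.H46X H31R H79G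

theorem six_ksum {A X : Type} [Fintype A] [Fintype X] (M : A → X → ℝ) (S : A → A → ℝ) (v : X → ℝ) :
    ∑ x, ∑ y, (∑ p, ∑ q, S p q * M p x * M q y) * v x * v y =
      ∑ p, ∑ q, S p q * (∑ x, M p x * v x) * (∑ y, M q y * v y) := by
  have h1 : ∑ x, ∑ y, (∑ p, ∑ q, S p q * M p x * M q y) * v x * v y =
      ∑ x, ∑ y, ∑ p, ∑ q, S p q * M p x * M q y * v x * v y := by
    refine sum_congr rfl fun x _ => sum_congr rfl fun y _ => ?_
    rw [sum_mul, sum_mul]
    refine sum_congr rfl fun p _ => ?_
    rw [sum_mul, sum_mul]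
  have h2 : ∑ x, ∑ y, ∑ p, ∑ q, S p q * M p x * M q y * v x * v y =
      ∑ p, ∑ q, ∑ x, ∑ y, S p q * M p x * M q y * v x * v y := by
    calc ∑ x, ∑ y, ∑ p, ∑ q, S p q * M p x * M q y * v x * v y
        = ∑ x, ∑ p, ∑ y, ∑ q, S p q * M p x * M q y * v x * v y :=
          sum_congr rfl fun x _ => sum_comm
      _ = ∑ p, ∑ x, ∑ y, ∑ q, S p q * M p x * M q y * v x * v y := sum_comm
      _ = ∑ p, ∑ x, ∑ q, ∑ y, S p q * M p x * M q y * v x * v y :=
          sum_congr rfl fun p _ => sum_congr rfl fun x _ => sum_comm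
      _ = ∑ p, ∑ q, ∑ x, ∑ y, S p q * M p x * M q y * v x * v y :=
          sum_congr rfl fun p _ => sum_comm
  rw [h1, h2]
  refine sum_congr rfl fun p _ => sum_congr rfl fun q _ => ?_
  rw [mul_assoc, sum_mul_sum, mul_sum]
  refine sum_congr rfl fun x _ => ?_
  rw [mul_sum]
  refine sum_congr rfl fun y _ => ?_
  ring

theorem six_frame {N : ℕ} (R : Arr N) (E v : Matrix (Fin N) (Fin N) ℝ) :
    ∑ i, ∑ j, ∑ k, ∑ l, frameR R E i j k l * v i j * v k l =
      ∑ a, ∑ b, ∑ c, ∑ e, R a b c e * (E * v * E.transpose) a b * (E * v * E.transpose) c e := by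
  have h1 : ∀ a b, (E * v * E.transpose) a b = ∑ x : Fin N × Fin N, E a x.1 * E b x.2 * v x.1 x.2 := by
    intro a b
    rw [Matrix.mul_apply, Fintype.sum_prod_type, sum_comm]
    refine sum_congr rfl fun j _ => ?_
    rw [Matrix.mul_apply, sum_mul]
    refine sum_congr rfl fun i _ => ?_
    rw [Matrix.transpose_apply]
    ring
  have h2 : ∀ i j k l, frameR R E i j k l = ∑ p : Fin N × Fin N, ∑ q : Fin N × Fin N,
      R p.1 p.2 q.1 q.2 * (E p.1 i * E p.2 j) * (E q.1 k * E q.2 l) := by
    intro i j k l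
    unfold frameR
    rw [Fintype.sum_prod_type]
    refine sum_congr rfl fun a _ => sum_congr rfl fun b _ => ?_
    rw [Fintype.sum_prod_type]
    refine sum_congr rfl fun c _ => sum_congr rfl fun e _ => ?_
    ring
  have h3 := six_ksum (fun (p : Fin N × Fin N) (x : Fin N × Fin N) => E p.1 x.1 * E p.2 x.2)
    (fun p q => R p.1 p.2 q.1 q.2) (fun x : Fin N × Fin N => v x.1 x.2)
  have h4 : ∑ i, ∑ j, ∑ k, ∑ l, frameR R E i j k l * v i j * v k l =
      ∑ x : Fin N × Fin N, ∑ y : Fin N × Fin N, (∑ p : Fin N × Fin N, ∑ q : Fin N × Fin N,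
        R p.1 p.2 q.1 q.2 * (E p.1 x.1 * E p.2 x.2) * (E q.1 y.1 * E q.2 y.2)) * v x.1 x.2 * v y.1 y.2 := by
    rw [Fintype.sum_prod_type]
    refine sum_congr rfl fun i _ => sum_congr rfl fun j _ => ?_
    rw [Fintype.sum_prod_type]
    refine sum_congr rfl fun k _ => sum_congr rfl fun l _ => ?_
    rw [h2]
  rw [h4]
  refine h3.trans ?_
  rw [Fintype.sum_prod_type]
  refine sum_congr rfl fun a _ => sum_congr rfl fun b _ => ?_
  rw [Fintype.sum_prod_type]
  refine sum_congr rfl fun c _ => sum_congr rfl fun e _ => ?_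
  rw [h1, h1]

theorem six_mm {N : ℕ} (p q : Fin N) (v : Matrix (Fin N) (Fin N) ℝ) :
    ∑ i, ∑ j, H7HB.mm p q i j * v i j = v p q - v q p := by
  unfold H7HB.mm
  simp only [sub_mul, sum_sub_distrib]
  congr 1
  · rw [sum_eq_single p, sum_eq_single q]
    · simp
    · intro j _ hj
      simp [hj]
    · simp
    · intro i _ hi
      simp [hi]
    · simp
  · rw [sum_eq_single q, sum_eq_single p]
    · simp
    · intro j _ hj
      simp [hj]
    · simp
    · intro i _ hi
      simp [hi]
    · simp

theorem six_card (p q : Fin 6) (hpq : p ≠ q) (j : ℕ) :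
    (H7HB.B p q (fun _ => 0) j).card = 0 ∨ (H7HB.B p q (fun _ => 0) j).card = 2 ∨
      (H7HB.B p q (fun _ => 0) j).card = 4 := by
  rcases Nat.eq_zero_or_pos j with rfl | hj
  · right
    right
    have key : ∀ p q : Fin 6, p ≠ q → (univ.filter fun u : Fin 6 => u ≠ p ∧ u ≠ q).card = 4 := by decide
    rw [← key p q hpq]
    congr 1
    ext u
    simp [H7HB.B]
  · left
    rw [card_eq_zero]
    ext u
    have : (0 : ℕ) ≠ j := by omega
    simp [H7HB.B, this]

/-- the matrix with the rows `a`, `b` -/
theorem six_matrix {N : ℕ} (a b : Fin N → ℝ) (p q : Fin N) (h : a p * b q - a q * b p ≠ 0) :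
    ∃ M E : Matrix (Fin N) (Fin N) ℝ, M * E = 1 ∧ (∀ j, M p j = a j) ∧ ∀ j, M q j = b j := by
  have hpq : p ≠ q := by
    rintro rfl
    apply h
    ring
  obtain ⟨M, hM⟩ : ∃ M : Matrix (Fin N) (Fin N) ℝ, M = fun i j => if i = p then a j else if i = q then b j else
    if i = j then 1 else 0 := ⟨_, rfl⟩
  have hp : ∀ j, M p j = a j := fun j => by rw [hM]; simp
  have hq : ∀ j, M q j = b j := fun j => by rw [hM]; simp [hpq.symm]
  have hdet : M.det ≠ 0 := by
    intro hd
    obtain ⟨x, hx0, hx⟩ := Matrix.exists_mulVec_eq_zero_iff.2 hd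
    have h1 : ∀ i, i ≠ p → i ≠ q → x i = 0 := by
      intro i hip hiq
      have h2 := congrFun hx i
      rw [Matrix.mulVec, dotProduct] at h2
      have h3 : ∀ j, M i j = if i = j then 1 else 0 := by
        intro j
        rw [hM]
        simp [hip, hiq]
      simp only [h3] at h2
      simpa using h2
    have h2 : ∀ c : Fin N → ℝ, ∑ j, c j * x j = c p * x p + c q * x q := by
      intro c
      rw [← sum_subset (subset_univ {p, q}), sum_pair hpq]
      intro j _ hj
      rw [mem_insert, mem_singleton, not_or] at hj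
      rw [h1 j hj.1 hj.2, mul_zero]
    have h3 := congrFun hx p
    have h4 := congrFun hx q
    rw [Matrix.mulVec, dotProduct] at h3 h4
    simp only [hp] at h3
    simp only [hq] at h4
    rw [h2] at h3 h4
    have h5 : (a p * b q - a q * b p) * x p = 0 := by
      have h3' : a p * x p + a q * x q = 0 := h3
      have h4' : b p * x p + b q * x q = 0 := h4
      linear_combination b q * h3' - a q * h4'
    have h6 : (a p * b q - a q * b p) * x q = 0 := by
      have h3' : a p * x p + a q * x q = 0 := h3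
      have h4' : b p * x p + b q * x q = 0 := h4
      linear_combination a p * h4' - b p * h3'
    apply hx0
    funext i
    by_cases hip : i = p
    · rw [hip]
      exact (mul_eq_zero.1 h5).resolve_left h
    by_cases hiq : i = q
    · rw [hiq]
      exact (mul_eq_zero.1 h6).resolve_left h
    exact h1 i hip hiq
  exact ⟨M, M⁻¹, Matrix.mul_nonsing_inv M (isUnit_iff_ne_zero.2 hdet), hp, hq⟩

theorem splitSimple_six {N : ℕ} (hN : N = 6) {R : Arr N}
    (h : ∃ a b : Fin N → ℝ, ∀ w : Matrix (Fin N) (Fin N) ℝ, w.transpose = -w →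
      ∑ i, ∑ j, ∑ k, ∑ l, R i j k l * w i j * w k l ≤ (∑ i, ∑ j, (a i * b j - a j * b i) * w i j) ^ 2) :
    H7HB.SplitSimple R := by
  subst hN
  obtain ⟨a, b, hab⟩ := h
  by_cases h0 : ∀ i j, a i * b j - a j * b i = 0
  · refine ⟨1, 0, 1, fun _ => 0, ?_, by decide, ?_, six_card 0 1 (by decide), ?_⟩
    · rw [Matrix.det_one]
      exact one_ne_zero
    · intro v hv
      rw [six_frame, Matrix.one_mul, Matrix.transpose_one, Matrix.mul_one]
      refine (hab v hv).trans ?_
      have h1 : ∑ i, ∑ j, (a i * b j - a j * b i) * v i j = 0 :=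
        sum_eq_zero fun i _ => sum_eq_zero fun j _ => by rw [h0, zero_mul]
      rw [h1, zero_pow two_ne_zero]
      exact sq_nonneg _
    · intro i j k l _ _ _ _ _ _ _ _ _
      exact ⟨rfl, rfl, rfl⟩
  · push Not at h0
    obtain ⟨p, q, hpq⟩ := h0
    obtain ⟨M, E, hME, hp, hq⟩ := six_matrix a b p q hpq
    have hne : p ≠ q := by
      rintro rfl
      apply hpq
      ring
    refine ⟨E, p, q, fun _ => 0, ?_, hne, ?_, six_card p q hne, ?_⟩
    · intro hE
      have h1 := congrArg Matrix.det hME
      rw [Matrix.det_mul, hE, mul_zero, Matrix.det_one] at h1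
      exact zero_ne_one h1
    · intro v hv
      rw [six_frame, six_mm]
      have h1 : (E * v * E.transpose).transpose = -(E * v * E.transpose) := by
        rw [Matrix.transpose_mul, Matrix.transpose_mul, Matrix.transpose_transpose, hv, Matrix.neg_mul,
          Matrix.mul_neg, Matrix.mul_assoc]
      refine (hab _ h1).trans (le_of_eq ?_)
      congr 1
      have h2 : M * (E * v * E.transpose) * M.transpose = v := by
        have h3 : E.transpose * M.transpose = 1 := by
          rw [← Matrix.transpose_mul, hME, Matrix.transpose_one]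
        calc M * (E * v * E.transpose) * M.transpose = (M * E) * v * (E.transpose * M.transpose) := by
              simp only [Matrix.mul_assoc]
          _ = v := by rw [hME, h3, Matrix.one_mul, Matrix.mul_one]
      obtain ⟨W, hW⟩ : ∃ W, W = E * v * E.transpose := ⟨_, rfl⟩
      rw [← hW] at h2 ⊢
      have h4 : ∀ s t, (M * W * M.transpose) s t = ∑ i, ∑ j, M s i * M t j * W i j := by
        intro s t
        rw [Matrix.mul_apply, sum_comm]
        refine sum_congr rfl fun j _ => ?_
        rw [Matrix.mul_apply, sum_mul]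
        refine sum_congr rfl fun i _ => ?_
        rw [Matrix.transpose_apply]
        ring
      have h5 := h4 p q
      have h6 := h4 q p
      rw [h2] at h5 h6
      simp only [hp, hq] at h5 h6
      rw [h5, h6, ← sum_sub_distrib]
      refine sum_congr rfl fun i _ => ?_
      rw [← sum_sub_distrib]
      refine sum_congr rfl fun j _ => ?_
      ring
    · intro i j k l _ _ _ _ _ _ _ _ _
      exact ⟨rfl, rfl, rfl⟩

end Pool.Agent.Lib.H39S
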